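import Pool.Agent.H29.AVH.OFD

/-!
# Row ID2 of avh_modules
-/

set_option autoImplicit false

namespace Pool.Agent.H29.AVH

open Finset Pool.Agent.H6.NB Pool.Agent.H70.OQ Pool.Agent.H70.EH Pool.Agent.H70.EI Pool.Agent.H78.XQ
open Pool.Agent.H66.IP (Local ins sp dm Good IsZ scl mBp m0p)
open Pool.Agent.H66.IQ Pool.Agent.H66.AV

theorem id2_num (n : ℕ) : 1 / 4 + 1 / 4 * (2 * 2 ^ n * (1 / 2 : ℝ) ^ (n / 3) + 2 * √(2 ^ n)) ≤
    2 ^ n * (2 * (1 / 2 : ℝ) ^ (n / 3)) := by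
  set j := n / 3 with hj
  have h3 : 2 * j ≤ n := by omega
  clear_value j
  have h0 : (0 : ℝ) < (1 / 2 : ℝ) ^ j := by positivity
  have h1 : √((2 : ℝ) ^ n) ≤ 2 ^ n * (1 / 2 : ℝ) ^ j := by
    rw [Real.sqrt_le_left (by positivity)]
    have e : ((2 : ℝ) ^ n * (1 / 2 : ℝ) ^ j) ^ 2 = 2 ^ n * (2 ^ n * (1 / 2 : ℝ) ^ (2 * j)) := by
      rw [mul_pow, ← pow_mul, ← pow_mul, mul_comm j 2, ← mul_assoc, ← pow_add]
      congr 2
      ring
    rw [e]
    have h4 : (1 : ℝ) ≤ 2 ^ n * (1 / 2 : ℝ) ^ (2 * j) := by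
      obtain ⟨d, rfl⟩ := Nat.exists_eq_add_of_le h3
      rw [pow_add, mul_right_comm, ← mul_pow]
      norm_num
      exact one_le_pow₀ (by norm_num)
    nlinarith [show (0 : ℝ) < 2 ^ n by positivity]
  have h2 : (1 : ℝ) ≤ 2 ^ n * (1 / 2 : ℝ) ^ j := by
    obtain ⟨d, hd⟩ : ∃ d, n = j + d := ⟨n - j, by omega⟩
    rw [hd, pow_add, mul_right_comm, ← mul_pow]
    norm_num
    exact one_le_pow₀ (by norm_num)
  nlinarith [h1, h2]

theorem pf_ID2 (hOFD : T_OFD) (hDTN : T_DTN) : T_ID2 := by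
  intro k
  obtain ⟨n₀, hn₀⟩ := hDTN k
  refine ⟨n₀, fun n hn A hA Q hQ => ?_⟩
  have hD := hn₀ n hn A hA Q hQ
  set c : ℝ := (Fintype.card (Wn n k) : ℝ) with hc
  have hc0 : 0 ≤ c := by positivity
  set F : (Fin n → Bool) → (Fin n → Bool) → Wn n k → ℝ := fun x x' z =>
    Pool.Agent.H66.AV.sg (z x).1 * Pool.Agent.H66.AV.sg (z x').1 *
      ((v0 A Q z x - 1 / 2) * (v0 A Q z x' - 1 / 2)) with hF
  have e1 : ∑ z : Wn n k, s0 A Q z ^ 2 = ∑ x, ∑ x', ∑ z : Wn n k, F x x' z := by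
    have e2 : ∀ z : Wn n k, s0 A Q z ^ 2 = ∑ x, ∑ x', F x x' z := by
      intro z
      unfold s0
      rw [sq, Finset.sum_mul_sum]
      refine Finset.sum_congr rfl fun x _ => Finset.sum_congr rfl fun x' _ => ?_
      rw [hF]
      ring
    rw [Finset.sum_congr rfl fun z _ => e2 z, Finset.sum_comm]
    exact Finset.sum_congr rfl fun x _ => Finset.sum_comm
  have hdiag : ∀ x, ∑ z : Wn n k, F x x z ≤ 1 / 4 * c := by
    intro x
    have h1 : ∀ z ∈ (univ : Finset (Wn n k)), F x x z ≤ 1 / 4 := by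
      intro z _
      have hv : 0 ≤ v0 A Q z x ∧ v0 A Q z x ≤ 1 := ofd_val k _ _
      have hs : Pool.Agent.H66.AV.sg (z x).1 * Pool.Agent.H66.AV.sg (z x).1 = 1 := by
        unfold Pool.Agent.H66.AV.sg
        split <;> norm_num
      rw [hF]
      simp only []
      rw [hs, one_mul]
      nlinarith [hv.1, hv.2]
    have h2 := Finset.sum_le_card_nsmul _ _ _ h1
    rw [Finset.card_univ, nsmul_eq_mul] at h2
    linarith
  have hoff : ∀ x, ∑ x' ∈ univ.erase x, ∑ z : Wn n k, F x x' z ≤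
      1 / 4 * (c * (2 * 2 ^ n * (1 / 2) ^ (n / 3) + 2 * √(2 ^ n))) := by
    intro x
    have h1 : ∑ x' ∈ univ.erase x, ∑ z : Wn n k, F x x' z ≤
        ∑ x' ∈ univ.erase x, 1 / 4 * ∑ z : Wn n k,
          |v0 A Q (Function.update z x' (false, (z x').2)) x -
            v0 A Q (Function.update z x' (true, (z x').2)) x| :=
      Finset.sum_le_sum fun x' hx' =>
        hOFD n k A Q x x' (Finset.ne_of_mem_erase hx').symm
    rw [← Finset.mul_sum] at h1
    exact h1.trans (mul_le_mul_of_nonneg_left (hD x) (by norm_num))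
  have hx : ∀ x ∈ (univ : Finset (Fin n → Bool)), ∑ x', ∑ z : Wn n k, F x x' z ≤
      c * (2 ^ n * (2 * (1 / 2 : ℝ) ^ (n / 3))) := by
    intro x _
    rw [← Finset.add_sum_erase univ _ (Finset.mem_univ x)]
    have h1 := hdiag x
    have h2 := hoff x
    have h3 := mul_le_mul_of_nonneg_left (id2_num n) hc0
    linarith
  have h4 := Finset.sum_le_card_nsmul _ _ _ hx
  rw [e1]
  refine h4.trans (le_of_eq ?_)
  rw [Finset.card_univ, nsmul_eq_mul, Fintype.card_fun, Fintype.card_bool, Fintype.card_fin]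
  push_cast
  rw [show (4 : ℝ) = 2 * 2 by norm_num, mul_pow]
  ring

end Pool.Agent.H29.AVH
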