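import Pool.Agent.H66.AV.TF

/-!
# Row OFD of avh_modules
-/

set_option autoImplicit false

namespace Pool.Agent.H29.AVH

open Finset Pool.Agent.H6.NB Pool.Agent.H70.OQ Pool.Agent.H70.EH Pool.Agent.H70.EI Pool.Agent.H78.XQ
open Pool.Agent.H66.IP (Local ins sp dm Good IsZ scl mBp m0p)
open Pool.Agent.H66.IQ Pool.Agent.H66.AV

theorem ofd_val (k : ℕ) (G : Prot k) (O : List Bool → Bool) : 0 ≤ G.val O ∧ G.val O ≤ 1 := by
  induction G with
  | test T =>
    unfold Prot.val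
    split <;> norm_num
  | coin l r hl hr =>
    unfold Prot.val
    constructor <;> linarith [hl.1, hl.2, hr.1, hr.2]
  | say l r hl hr =>
    unfold Prot.val
    exact ⟨le_max_of_le_left hl.1, max_le hl.2 hr.2⟩

/-- the bit of `x` gets the value `b` -/
def ofdU {n k : ℕ} (z : Wn n k) (x : Fin n → Bool) (b : Bool) : Wn n k :=
  Function.update z x (b, (z x).2)

theorem ofdU_self {n k : ℕ} (z : Wn n k) (x : Fin n → Bool) : ofdU z x (z x).1 = z := by
  unfold ofdU
  rw [Prod.mk.eta, Function.update_eq_self]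

theorem ofdU_at {n k : ℕ} (z : Wn n k) (x : Fin n → Bool) (b : Bool) :
    ofdU z x b x = (b, (z x).2) := by
  unfold ofdU
  rw [Function.update_self]

theorem ofdU_ne {n k : ℕ} (z : Wn n k) {x x' : Fin n → Bool} (h : x ≠ x') (b : Bool) :
    ofdU z x' b x = z x := by
  unfold ofdU
  rw [Function.update_of_ne h]

theorem ofdU_U {n k : ℕ} (z : Wn n k) (x : Fin n → Bool) (b c : Bool) :
    ofdU (ofdU z x b) x c = ofdU z x c := by
  conv_lhs => unfold ofdU
  rw [Function.update_idem, Function.update_self]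
  rfl

theorem ofdU_comm {n k : ℕ} (z : Wn n k) {x x' : Fin n → Bool} (h : x ≠ x') (b c : Bool) :
    ofdU (ofdU z x' c) x b = ofdU (ofdU z x b) x' c := by
  have h1 := ofdU_ne z h c
  have h2 := ofdU_ne z h.symm b
  conv_lhs => unfold ofdU
  conv_rhs => unfold ofdU
  change Function.update (ofdU z x' c) x (b, (ofdU z x' c x).2) =
    Function.update (ofdU z x b) x' (c, (ofdU z x b x').2)
  rw [h1, h2]
  unfold ofdU
  exact Function.update_comm h.symm _ _ _

theorem ofd_two {n k : ℕ} (F : Wn n k → ℝ) (x : Fin n → Bool) :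
    ∑ z : Wn n k, ∑ b : Bool, F (ofdU z x b) = 2 * ∑ z : Wn n k, F z := by
  have hinv : Function.Involutive (fun z : Wn n k => ofdU z x (!(z x).1)) := by
    intro z
    show ofdU (ofdU z x (!(z x).1)) x (!(ofdU z x (!(z x).1) x).1) = z
    rw [ofdU_U, ofdU_at, Bool.not_not, ofdU_self]
  have h1 : ∑ z : Wn n k, F (ofdU z x (!(z x).1)) = ∑ z : Wn n k, F z :=
    Equiv.sum_comp (hinv.toPerm _) F
  have h2 : ∀ z : Wn n k, ∑ b : Bool, F (ofdU z x b) = F z + F (ofdU z x (!(z x).1)) := by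
    intro z
    rw [Fintype.sum_bool]
    have h3 := ofdU_self z x
    cases hb : (z x).1
    · rw [hb] at h3
      rw [h3, add_comm]
      rfl
    · rw [hb] at h3
      rw [h3]
      rfl
  rw [Finset.sum_congr rfl fun z _ => h2 z, Finset.sum_add_distrib, h1]
  ring

theorem ofd_v0_self {n k : ℕ} (A : (Fin n → Bool) → Prot k)
    (Q : ((Fin n → Bool) → Nn n k → Bool) → List Bool → Bool) (z : Wn n k) (x : Fin n → Bool)
    (b : Bool) : v0 A Q (ofdU z x b) x = v0 A Q z x := by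
  have h : zer (ofdU z x b) x = zer z x := ofdU_U z x b false
  unfold v0
  rw [h]

theorem pf_OFD : T_OFD := by
  intro n k A Q x x' hx
  set F : Wn n k → ℝ := fun z =>
    Pool.Agent.H66.AV.sg (z x).1 * Pool.Agent.H66.AV.sg (z x').1 * ((v0 A Q z x - 1 / 2) * (v0 A Q z x' - 1 / 2)) with hF
  have h4 : 4 * ∑ z : Wn n k, F z =
      ∑ z : Wn n k, ∑ b' : Bool, ∑ b : Bool, F (ofdU (ofdU z x' b') x b) := by
    have e1 : ∑ z : Wn n k, ∑ b' : Bool, ∑ b : Bool, F (ofdU (ofdU z x' b') x b) =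
        2 * ∑ z : Wn n k, ∑ b : Bool, F (ofdU z x b) :=
      ofd_two (fun z => ∑ b : Bool, F (ofdU z x b)) x'
    rw [e1, ofd_two F x]
    ring
  have h5 : ∀ z : Wn n k, ∑ b' : Bool, ∑ b : Bool, F (ofdU (ofdU z x' b') x b) ≤
      |v0 A Q (ofdU z x' false) x - v0 A Q (ofdU z x' true) x| := by
    intro z
    have h6 : ∀ b' b : Bool, F (ofdU (ofdU z x' b') x b) =
        Pool.Agent.H66.AV.sg b * Pool.Agent.H66.AV.sg b' * ((v0 A Q (ofdU z x' b') x - 1 / 2) *
          (v0 A Q (ofdU z x b) x' - 1 / 2)) := by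
      intro b' b
      have e1 : (ofdU (ofdU z x' b') x b x).1 = b := by rw [ofdU_at]
      have e2 : (ofdU (ofdU z x' b') x b x').1 = b' := by
        rw [ofdU_ne _ hx.symm, ofdU_at]
      have e3 : v0 A Q (ofdU (ofdU z x' b') x b) x = v0 A Q (ofdU z x' b') x :=
        ofd_v0_self A Q _ x b
      have e4 : v0 A Q (ofdU (ofdU z x' b') x b) x' = v0 A Q (ofdU z x b) x' := by
        rw [ofdU_comm z hx b b']
        exact ofd_v0_self A Q _ x' b'
      rw [hF]
      simp only []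
      rw [e1, e2, e3, e4]
    simp only [h6, Fintype.sum_bool]
    have hg : ∀ w : Wn n k, 0 ≤ v0 A Q w x' ∧ v0 A Q w x' ≤ 1 := fun w => ofd_val k _ _
    have g0 := hg (ofdU z x false)
    have g1 := hg (ofdU z x true)
    set a0 := v0 A Q (ofdU z x' false) x
    set a1 := v0 A Q (ofdU z x' true) x
    set c0 := v0 A Q (ofdU z x false) x'
    set c1 := v0 A Q (ofdU z x true) x'
    have hs0 : Pool.Agent.H66.AV.sg false = 1 := rfl
    have hs1 : Pool.Agent.H66.AV.sg true = -1 := rfl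
    rw [hs0, hs1]
    have e : -1 * -1 * ((a1 - 1 / 2) * (c1 - 1 / 2)) + 1 * -1 * ((a1 - 1 / 2) * (c0 - 1 / 2)) +
        (-1 * 1 * ((a0 - 1 / 2) * (c1 - 1 / 2)) + 1 * 1 * ((a0 - 1 / 2) * (c0 - 1 / 2))) =
        (a0 - a1) * (c0 - c1) := by ring
    rw [e]
    have habs : |c0 - c1| ≤ 1 := abs_le.2 ⟨by linarith [g0.1, g1.2], by linarith [g0.2, g1.1]⟩
    calc (a0 - a1) * (c0 - c1) ≤ |(a0 - a1) * (c0 - c1)| := le_abs_self _
      _ = |a0 - a1| * |c0 - c1| := abs_mul _ _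
      _ ≤ |a0 - a1| * 1 := mul_le_mul_of_nonneg_left habs (abs_nonneg _)
      _ = |a0 - a1| := mul_one _
  have h6 : ∑ z : Wn n k, ∑ b' : Bool, ∑ b : Bool, F (ofdU (ofdU z x' b') x b) ≤
      ∑ z : Wn n k, |v0 A Q (ofdU z x' false) x - v0 A Q (ofdU z x' true) x| :=
    Finset.sum_le_sum fun z _ => h5 z
  change ∑ z : Wn n k, F z ≤ 1 / 4 *
    ∑ z : Wn n k, |v0 A Q (ofdU z x' false) x - v0 A Q (ofdU z x' true) x|
  linarith

end Pool.Agent.H29.AVH
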