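import Pool.Agent.H66.AV.TF
import Pool.Agent.H66.IP.TC

/-!
# Protocols which are not better than guessing: row WMS (the masses of the weights)
-/

set_option autoImplicit false

namespace Pool.Agent.H29.AVH

open Finset Pool.Agent.H6.NB Pool.Agent.H70.OQ Pool.Agent.H70.EH Pool.Agent.H70.EI Pool.Agent.H78.XQ
open Pool.Agent.H66.IP (Local ins sp dm Good IsZ scl mBp m0p)
open Pool.Agent.H66.IQ Pool.Agent.H66.AV

private theorem wms_scl (V : ℕ → Local) (p : ℕ × List Bool) : 20 < scl V p := by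
  unfold scl
  rcases Nat.eq_zero_or_pos (V p.1).c with h | h
  · rw [h, pow_zero]; omega
  · omega

private theorem wms_one {I : Type} [Fintype I] [DecidableEq I] {T : I → Type}
    [∀ j, Fintype (T j)] (m₀ : ∀ j, T j → ℝ) (h1 : ∀ j, ∑ p, m₀ j p = 1) :
    ∑ P : (∀ j, T j), ∏ j, m₀ j (P j) = 1 := by
  have h2 := Finset.prod_univ_sum (fun j => (Finset.univ : Finset (T j))) (fun j p => m₀ j p)
  rw [Fintype.piFinset_univ] at h2
  rw [← h2, Finset.prod_congr rfl fun j _ => h1 j, Finset.prod_const_one]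

theorem pf_WMS (hHY4 : T_HY4) (hMSB : Pool.Agent.H66.IP.T_MSB) (hSMS : Pool.Agent.H66.IP.T_SMS)
    (hFDC : Pool.Agent.H66.IP.T_FDC) : T_WMS := by
  classical
  intro V E O hZ g
  have h0 : ∀ (p : {a // a ∈ E}) c, 0 ≤ m0p V p.1 c := fun p => (hMSB V p.1).1
  have h1 : ∀ p : {a // a ∈ E}, ∑ c, m0p V p.1 c = 1 := fun p => (hMSB V p.1).2.1
  have hm0 : ∀ (b : Bool) (p : {a // a ∈ E}) c, 0 ≤ mBp V p.1 b c := fun b p =>
    ((hMSB V p.1).2.2 b).1
  have hm1 : ∀ (b : Bool) (p : {a // a ∈ E}), ∑ c, mBp V p.1 b c ≤ 1 := fun b p =>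
    ((hMSB V p.1).2.2 b).2.1
  have hm2 : ∀ (b : Bool) (p : {a // a ∈ E}), |∑ c, mBp V p.1 b c - 1| ≤ (1 / 8) ^ scl V p.1 :=
    fun b p => ((hMSB V p.1).2.2 b).2.2
  have hf : ∀ (i j : {a // a ∈ E})
      (P : ∀ p : {a // a ∈ E}, CP (dm V) p.1) (c : CP (dm V) j.1), scl V i.1 ≤ scl V j.1 →
      decide ((V i.1.1).acc i.1.2 (O (Function.update P j c) g)) =
        decide ((V i.1.1).acc i.1.2 (O P g)) := by
    intro i j P c hij
    exact decide_eq_decide.2 (hFDC V E O hZ P g i.1 j.1 j.2 c hij)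
  refine ⟨fun n P => ?_, fun n => ?_, fun P => ?_, ?_⟩
  · unfold Pool.Agent.H66.AV.wgt
    refine Finset.prod_nonneg fun p _ => ?_
    split_ifs
    · exact hm0 _ _ _
    · exact h0 _ _
  · have h2 := (hHY4 {a // a ∈ E} (fun p => CP (dm V) p.1) (fun p => scl V p.1)
      (fun b p c => if scl V p.1 ≤ n then mBp V p.1 b c else m0p V p.1 c)
      (fun P p => decide ((V p.1.1).acc p.1.2 (O P g)))
      (fun b p c => by
        show 0 ≤ if scl V p.1 ≤ n then mBp V p.1 b c else m0p V p.1 c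
        split_ifs
        · exact hm0 _ _ _
        · exact h0 _ _)
      (fun b p => by
        show ∑ c, (if scl V p.1 ≤ n then mBp V p.1 b c else m0p V p.1 c) ≤ 1
        by_cases h3 : scl V p.1 ≤ n
        · simp only [if_pos h3]
          exact hm1 b p
        · simp only [if_neg h3]
          exact (h1 p).le)
      hf).1
    unfold Pool.Agent.H66.AV.wgt
    exact h2
  · unfold Pool.Agent.H66.AV.wgl
    exact Finset.prod_nonneg fun p _ => hm0 _ _ _
  · have h2 := (hHY4 {a // a ∈ E} (fun p => CP (dm V) p.1) (fun p => scl V p.1)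
      (fun b p c => mBp V p.1 b c)
      (fun P p => decide ((V p.1.1).acc p.1.2 (O P g))) hm0 hm1 hf).2 20
      (fun p c => m0p V p.1 c) (fun _ => 1) (fun p => (1 / 8) ^ scl V p.1) h0
      (fun p => (h1 p).le) (fun p => by positivity)
      (fun b p _ _ => by
        simp only [mul_one]
        rw [h1 p]
        exact hm2 b p)
    have h3 : ∑ P : (∀ p : {a // a ∈ E}, CP (dm V) p.1),
        (∏ p, if scl V p.1 ≤ 20 then
          mBp V p.1 (decide ((V p.1.1).acc p.1.2 (O P g))) (P p) else m0p V p.1 (P p)) = 1 := by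
      rw [← wms_one (fun p : {a // a ∈ E} => fun c => m0p V p.1 c) h1]
      refine Finset.sum_congr rfl fun P _ => Finset.prod_congr rfl fun p _ => ?_
      rw [if_neg (not_le.2 (wms_scl V p.1))]
    have h4 : ∑ p ∈ univ.filter (fun p : {a // a ∈ E} => 20 < scl V p.1),
        (1 / 8 : ℝ) ^ scl V p.1 ≤ (1 / 4) ^ 20 := by
      refine (Finset.sum_le_sum_of_subset_of_nonneg (Finset.filter_subset _ _)
        fun p _ _ => by positivity).trans ?_
      rw [Finset.sum_coe_sort E (fun p => (1 / 8 : ℝ) ^ scl V p)]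
      exact hSMS V E 20 le_rfl fun p _ => wms_scl V p
    simp only [mul_one] at h2
    rw [h3] at h2
    have h5 := (abs_le.1 (h2.trans h4)).1
    unfold Pool.Agent.H66.AV.wgl
    linarith

end Pool.Agent.H29.AVH
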